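import Pool.Agent.Q72.OK.Stm

/-! JOB H of the project OK: multiplicities at least `m` pass to locally uniform limits. -/

set_option autoImplicit false

namespace Pool.Agent.Q185.OK

open Metric Filter Topology

/-- Existence of zeros of the approximating functions. -/
theorem hurwitz_zero {ι : Type} {l : Filter ι} {U : Set ℂ} {g : ι → ℂ → ℂ} {h : ℂ → ℂ} (hU : IsOpen U)
    (hd : ∀ᶠ i in l, DifferentiableOn ℂ (g i) U) (hlim : TendstoLocallyUniformlyOn g h l U)
    (hh : ContinuousOn h U) {z : ℂ} {r : ℝ} (hr : 0 < r) (hsub : closedBall z r ⊆ U) (hz : h z = 0)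
    (hne : ∀ w ∈ sphere z r, h w ≠ 0) : ∀ᶠ i in l, ∃ x ∈ closedBall z r, g i x = 0 := by
  have hcs : IsCompact (sphere z r) := isCompact_sphere z r
  obtain ⟨δ, hδ, hδ'⟩ : ∃ δ : ℝ, 0 < δ ∧ ∀ w ∈ sphere z r, 2 * δ ≤ ‖h w‖ := by
    rcases (sphere z r).eq_empty_or_nonempty with he | hn
    · exact ⟨1, one_pos, fun w hw => absurd hw (by rw [he]; simp)⟩
    · obtain ⟨w0, hw0, hmin⟩ := hcs.exists_isMinOn hn
        ((hh.mono (sphere_subset_closedBall.trans hsub)).norm)
      refine ⟨‖h w0‖ / 2, by have := norm_pos_iff.2 (hne w0 hw0); positivity, fun w hw => ?_⟩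
      have := hmin hw
      simp only [Set.mem_ofPred_eq] at this
      linarith
  have hK := (tendstoLocallyUniformlyOn_iff_forall_isCompact hU).1 hlim (closedBall z r) hsub (isCompact_closedBall z r)
  rw [Metric.tendstoUniformlyOn_iff] at hK
  filter_upwards [hd, hK δ hδ] with i hdi hi
  by_contra hcon
  push Not at hcon
  have hdc : DiffContOnCl ℂ (fun w => (g i w)⁻¹) (ball z r) := by
    apply DifferentiableOn.diffContOnCl
    rw [closure_ball z hr.ne']
    exact (hdi.mono hsub).inv hcon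
  have hfr : ∀ w ∈ frontier (ball z r), ‖(g i w)⁻¹‖ ≤ δ⁻¹ := by
    intro w hw
    rw [frontier_ball z hr.ne'] at hw
    rw [norm_inv]
    apply inv_anti₀ hδ
    have h1 := hδ' w hw
    have h2 := hi w (sphere_subset_closedBall hw)
    rw [dist_eq_norm] at h2
    have h3 : ‖h w‖ ≤ ‖h w - g i w‖ + ‖g i w‖ := by
      calc ‖h w‖ = ‖(h w - g i w) + g i w‖ := by rw [sub_add_cancel]
        _ ≤ _ := norm_add_le _ _
    linarith
  have h4 := Complex.norm_le_of_forall_mem_frontier_norm_le isBounded_ball hdc hfr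
    (z := z) (subset_closure (mem_ball_self hr))
  have h5 := hi z (mem_closedBall_self hr.le)
  rw [hz, dist_zero_left] at h5
  have h6 : 0 < ‖g i z‖ := norm_pos_iff.2 (hcon z (mem_closedBall_self hr.le))
  rw [norm_inv] at h4
  have h7 := (inv_le_inv₀ h6 hδ).1 h4
  linarith

/-- Iterated derivatives converge. -/
theorem iter_lim {ι : Type} {l : Filter ι} {U : Set ℂ} {g : ι → ℂ → ℂ} {h : ℂ → ℂ} (hU : IsOpen U)
    (hd : ∀ᶠ i in l, DifferentiableOn ℂ (g i) U) (hlim : TendstoLocallyUniformlyOn g h l U) (k : ℕ) :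
    TendstoLocallyUniformlyOn (fun i => iteratedDeriv k (g i)) (iteratedDeriv k h) l U ∧
      ∀ᶠ i in l, DifferentiableOn ℂ (iteratedDeriv k (g i)) U := by
  induction k with
  | zero => simpa using ⟨hlim, hd⟩
  | succ k ih =>
    obtain ⟨h1, h2⟩ := ih
    constructor
    · have h3 := h1.deriv h2 hU
      simp only [iteratedDeriv_succ]
      exact h3
    · filter_upwards [h2] with i hi
      rw [iteratedDeriv_succ]
      exact hi.deriv hU

/-- JOB H: multiplicities at least `m` pass to the limit. -/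
theorem job_h : Pool.Agent.Q72.OK.S_H := by
  intro ι l _ U g h m hU hd hlim hm z hzU hz
  have hh : DifferentiableOn ℂ h U := hlim.differentiableOn hd hU
  have hha : AnalyticAt ℂ h z := hh.analyticAt (hU.mem_nhds hzU)
  rcases hha.eventually_eq_zero_or_eventually_ne_zero with h0 | h0
  · rw [analyticOrderAt_eq_top.2 h0]
    exact le_top
  rw [natCast_le_analyticOrderAt_iff_iteratedDeriv_eq_zero hha]
  intro k hk
  by_contra hcon
  obtain ⟨hl1, hl2⟩ := iter_lim hU hd hlim k
  obtain ⟨c, hc⟩ : ∃ c : ℝ, c = ‖iteratedDeriv k h z‖ := ⟨_, rfl⟩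
  have hc0 : 0 < c := by rw [hc]; exact norm_pos_iff.2 hcon
  have hcont : ContinuousAt (iteratedDeriv k h) z :=
    (hl1.differentiableOn hl2 hU).continuousOn.continuousAt (hU.mem_nhds hzU)
  have hev : ∀ᶠ w in 𝓝 z, c / 2 < ‖iteratedDeriv k h w‖ :=
    hcont.norm.eventually (lt_mem_nhds (by show c / 2 < ‖iteratedDeriv k h z‖; rw [← hc]; linarith))
  have hev2 : ∀ᶠ w in 𝓝 z, w ∈ U := hU.mem_nhds hzU
  have hev3 : ∀ᶠ w in 𝓝 z, w ≠ z → h w ≠ 0 := eventually_nhdsWithin_iff.1 h0
  obtain ⟨r, hr, hball⟩ := nhds_basis_closedBall.mem_iff.1 ((hev.and hev2).and hev3)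
  have hsub : closedBall z r ⊆ U := fun w hw => (hball hw).1.2
  have hzero := hurwitz_zero hU hd hlim hh.continuousOn hr hsub hz (by
    intro w hw
    apply (hball (sphere_subset_closedBall hw)).2
    rintro rfl
    rw [mem_sphere, dist_self] at hw
    exact hr.ne hw)
  have hK := (tendstoLocallyUniformlyOn_iff_forall_isCompact hU).1 hl1 (closedBall z r) hsub (isCompact_closedBall z r)
  rw [Metric.tendstoUniformlyOn_iff] at hK
  obtain ⟨i, ⟨x, hx, hgx⟩, hi, hmi, hdi⟩ := (hzero.and ((hK (c / 2) (by positivity)).and (hm.and hd))).exists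
  have h1 := hmi x (hsub hx) hgx
  have h2 : AnalyticAt ℂ (g i) x := hdi.analyticAt (hU.mem_nhds (hsub hx))
  rw [natCast_le_analyticOrderAt_iff_iteratedDeriv_eq_zero h2] at h1
  have h3 := hi x hx
  rw [h1 k hk, dist_zero_right] at h3
  have h4 := (hball hx).1.1
  linarith

end Pool.Agent.Q185.OK
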