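import Pool.Agent.Q72.OK.Stm
import Pool.Agent.H952R2.Sextic.CommonZero
import Pool.Agent.H159R3.Exp.Laur

/-! JOB A2 of the project OK: a monomial curve outside of `V'` gives infinitely many integral points. -/

set_option autoImplicit false

namespace Pool.Agent.Q185.OK

open MvPolynomial
open Pool.Agent.H159R3.Exp (Laur)
open Pool.Agent.Q72.OK
open scoped NumberField LinearAlgebra.Projectivization

/-- the monomial curve with the matrix `S` and the coefficients `x` -/
def cur {M : Type*} [CommRing M] {n : ℕ} (k : Fin (n + 1) → ℕ) (S : Matrix (Fin (n + 1)) (Fin (n + 1)) M)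
    (x : Fin (n + 1) → M) (t : M) : Fin (n + 1) → M := S.mulVec (fun j => x j * t ^ k j)

/-- the index type of the unknowns -/
abbrev Ix (n : ℕ) : Type := (Fin (n + 1) × Fin (n + 1)) ⊕ (Fin (n + 1) × Fin (n + 1)) ⊕ Fin (n + 1)

/-- generic curve -/
noncomputable def gcur {K : Type*} [Field K] {n : ℕ} (k : Fin (n + 1) → ℕ) (a : ℕ) (r : Fin (n + 1)) :
    MvPolynomial (Ix n) K :=
  ∑ j, X (Sum.inl (r, j)) * (X (Sum.inr (Sum.inr j)) * C ((2 ^ a) ^ k j))

/-- the first matrix -/
def mS {M : Type*} {n : ℕ} (κ : Ix n → M) : Matrix (Fin (n + 1)) (Fin (n + 1)) M :=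
  Matrix.of fun r j => κ (Sum.inl (r, j))

/-- the second matrix -/
def mT {M : Type*} {n : ℕ} (κ : Ix n → M) : Matrix (Fin (n + 1)) (Fin (n + 1)) M :=
  Matrix.of fun r j => κ (Sum.inr (Sum.inl (r, j)))

/-- the vector -/
def vX {M : Type*} {n : ℕ} (κ : Ix n → M) : Fin (n + 1) → M := fun j => κ (Sum.inr (Sum.inr j))

theorem aeval_gcur {K M : Type*} [Field K] [Field M] [Algebra K M] {n : ℕ} (k : Fin (n + 1) → ℕ) (a : ℕ)
    (κ : Ix n → M) : (fun r => aeval κ (gcur (K := K) k a r)) = cur k (mS κ) (vX κ) (2 ^ a) := by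
  funext r
  unfold gcur cur mS vX Matrix.mulVec dotProduct
  simp only [map_sum, map_mul, aeval_X, aeval_C, map_pow, map_ofNat, Matrix.of_apply]

theorem aeval_bind_gcur {K M : Type*} [Field K] [Field M] [Algebra K M] {n : ℕ} (k : Fin (n + 1) → ℕ) (a : ℕ)
    (κ : Ix n → M) (p : MvPolynomial (Fin (n + 1)) K) :
    aeval κ (bind₁ (gcur (K := K) k a) p) = aeval (cur k (mS κ) (vX κ) (2 ^ a)) p := by
  rw [aeval_bind₁, aeval_gcur]

/-- the equations of the inverse matrix -/
noncomputable def geq {K : Type*} [Field K] {n : ℕ} (r c : Fin (n + 1)) : MvPolynomial (Ix n) K :=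
  (∑ j, X (Sum.inl (r, j)) * X (Sum.inr (Sum.inl (j, c)))) - C (if r = c then 1 else 0)

theorem aeval_geq {K M : Type*} [Field K] [Field M] [Algebra K M] {n : ℕ} (κ : Ix n → M) (r c : Fin (n + 1)) :
    aeval κ (geq (K := K) r c) = (mS κ * mT κ) r c - (1 : Matrix (Fin (n + 1)) (Fin (n + 1)) M) r c := by
  unfold geq mS mT
  rw [Matrix.mul_apply, Matrix.one_apply]
  simp only [map_sub, map_sum, map_mul, aeval_X, Matrix.of_apply]
  congr 1
  split_ifs <;> simp

theorem laur_cur {k : Type*} [Field k] {n : ℕ} (e : Fin (n + 1) → ℕ) (S : Matrix (Fin (n + 1)) (Fin (n + 1)) k)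
    (x : Fin (n + 1) → k) (r : Fin (n + 1)) : Laur (fun t => cur e S x t r) := by
  refine ⟨0, ∑ j, Polynomial.C (S r j * x j) * Polynomial.X ^ e j, fun t _ => ?_⟩
  unfold cur Matrix.mulVec dotProduct
  rw [pow_zero, mul_one, Polynomial.eval_finsetSum]
  apply Finset.sum_congr rfl
  intro j _
  simp only [Polynomial.eval_mul, Polynomial.eval_C, Polynomial.eval_pow, Polynomial.eval_X]
  ring

/-- everything over a number field -/
theorem infinite_integral {K : Type} [Field K] [NumberField K] {ι κ : Type} {n : ℕ}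
    (F : ι → MvPolynomial (Fin (n + 1)) (𝓞 K)) (G : κ → MvPolynomial (Fin (n + 1)) (𝓞 K))
    (L : Type) [Field L] [NumberField L] [Algebra K L] (k : Fin (n + 1) → ℕ)
    (S T : Matrix (Fin (n + 1)) (Fin (n + 1)) L) (x : Fin (n + 1) → L) (hST : S * T = 1)
    (i j : Fin (n + 1)) (hi : x i ≠ 0) (hj : x j ≠ 0) (hij : k i ≠ k j)
    (hF : ∀ (a : ℕ) u, aeval (cur k S x (2 ^ a)) (map (algebraMap (𝓞 K) K) (F u)) = 0) (l : κ)
    (hG : aeval (cur k S x 1) (map (algebraMap (𝓞 K) K) (G l)) ≠ 0) : ¬ IntegralFinite F G := by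
  classical
  intro hfin
  have hTS : T * S = 1 := mul_eq_one_comm.1 hST
  let ℓ : (Fin (n + 1) → L) ≃ₗ[L] (Fin (n + 1) → L) :=
    LinearEquiv.ofLinear (Matrix.toLin' T) (Matrix.toLin' S)
      (by rw [← Matrix.toLin'_mul, hTS, Matrix.toLin'_one]) (by rw [← Matrix.toLin'_mul, hST, Matrix.toLin'_one])
  have hℓ : ∀ t, ℓ (cur k S x t) = fun j => x j * t ^ k j := by
    intro t
    show Matrix.toLin' T (S.mulVec _) = _
    rw [Matrix.toLin'_apply, Matrix.mulVec_mulVec, hTS, Matrix.one_mulVec]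
  let Γ : Subgroup Lˣ := Subgroup.closure ((Finset.univ.image (fun j : Fin (n + 1) =>
    if h : x j ≠ 0 then Units.mk0 (x j) h else 1)) ∪ {Units.mk0 (2 : L) two_ne_zero} : Finset Lˣ)
  have hΓ : Γ.FG := ⟨_, rfl⟩
  have hΓ2 : Units.mk0 (2 : L) two_ne_zero ∈ Γ := by
    apply Subgroup.subset_closure
    rw [Finset.mem_coe, Finset.mem_union]
    right
    simp
  have hΓx : ∀ j, ∀ h : x j ≠ 0, Units.mk0 (x j) h ∈ Γ := by
    intro j h
    apply Subgroup.subset_closure
    rw [Finset.mem_coe, Finset.mem_union]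
    left
    rw [Finset.mem_image]
    exact ⟨j, Finset.mem_univ _, by rw [dif_pos h]⟩
  have hfin' := hfin L ℓ Γ hΓ
  have hp2 : ∀ a : ℕ, ((2 : L) ^ a) ≠ 0 := fun a => pow_ne_zero _ two_ne_zero
  have hne : ∀ a : ℕ, cur k S x (2 ^ a) ≠ 0 := by
    intro a h0
    have h1 := hℓ (2 ^ a)
    rw [h0, map_zero] at h1
    have h2 := congrFun h1 i
    exact mul_ne_zero hi (pow_ne_zero _ (hp2 a)) h2.symm
  -- the points
  let P : ℕ → ℙ L (Fin (n + 1) → L) := fun a => Projectivization.mk L (cur k S x (2 ^ a)) (hne a)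
  have hPinj : Function.Injective P := by
    intro a b hab
    rw [Projectivization.mk_eq_mk_iff'] at hab
    obtain ⟨c, hc⟩ := hab
    have h1 := congrArg ℓ hc
    rw [map_smul, hℓ, hℓ] at h1
    have h2 := congrFun h1 i
    have h3 := congrFun h1 j
    simp only [Pi.smul_apply, smul_eq_mul] at h2 h3
    have h2' : c * (2 ^ b) ^ k i = (2 ^ a) ^ k i := by
      apply mul_left_cancel₀ hi
      linear_combination h2
    have h3' : c * (2 ^ b) ^ k j = (2 ^ a) ^ k j := by
      apply mul_left_cancel₀ hj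
      linear_combination h3
    have hc0 : c ≠ 0 := by
      rintro rfl
      rw [zero_mul] at h2'
      exact pow_ne_zero _ (hp2 a) h2'.symm
    have h4 : ((2 : L) ^ b) ^ k i * (2 ^ a) ^ k j = (2 ^ a) ^ k i * (2 ^ b) ^ k j := by
      apply mul_left_cancel₀ hc0
      linear_combination ((2 : L) ^ a) ^ k j * h2' - ((2 : L) ^ a) ^ k i * h3'
    have h5 : (2 : ℕ) ^ (b * k i + a * k j) = 2 ^ (a * k i + b * k j) := by
      have : ((2 ^ (b * k i + a * k j) : ℕ) : L) = ((2 ^ (a * k i + b * k j) : ℕ) : L) := by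
        push_cast
        rw [pow_add, pow_add, pow_mul, pow_mul, pow_mul, pow_mul]
        exact h4
      exact_mod_cast this
    have h6 : b * k i + a * k j = a * k i + b * k j := Nat.pow_right_injective le_rfl h5
    have h7 : ((b : ℤ) - a) * ((k i : ℤ) - k j) = 0 := by
      have : ((b * k i + a * k j : ℕ) : ℤ) = ((a * k i + b * k j : ℕ) : ℤ) := by rw [h6]
      push_cast at this
      linear_combination this
    rcases mul_eq_zero.1 h7 with h8 | h8
    · omega
    · exact absurd (by omega : k i = k j) hij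
  -- outside V'
  have hl : Laur (fun t => eval₂ (algebraMap K L) (cur k S x t) (map (algebraMap (𝓞 K) K) (G l))) :=
    Laur.eval₂ (algebraMap K L) (cur k S x) (laur_cur k S x) _
  have hzf := hl.finite_zeros ⟨1, one_ne_zero, hG⟩
  have hinf : (Set.univ \ {m : ℕ | eval₂ (algebraMap K L) (cur k S x (2 ^ m)) (map (algebraMap (𝓞 K) K) (G l)) = 0}).Infinite :=
    Set.infinite_univ.diff hzf
  apply (hinf.image hPinj.injOn)
  apply hfin'.subset
  rintro _ ⟨a, ⟨_, ha⟩, rfl⟩
  refine ⟨cur k S x (2 ^ a), hne a, rfl, ?_, ⟨l, ?_⟩, ?_⟩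
  · intro u
    have h1 := hF a u
    rw [aeval_def, eval₂_map] at h1
    exact h1
  · intro h0
    apply ha
    show eval₂ (algebraMap K L) (cur k S x (2 ^ a)) (map (algebraMap (𝓞 K) K) (G l)) = 0
    rw [eval₂_map]
    exact h0
  · intro r
    rw [hℓ]
    by_cases hr : x r = 0
    · left
      simp [hr]
    · right
      refine ⟨Units.mk0 (x r) hr * (Units.mk0 (2 : L) two_ne_zero ^ a) ^ k r,
        Γ.mul_mem (hΓx r hr) (Γ.pow_mem (Γ.pow_mem hΓ2 a) (k r)), ?_⟩
      simp

/-- JOB A2 -/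
theorem job_a2 : S_A2 := by
  classical
  intro K _ _ ι κ n σ F G _ _ hfin B S x k hM t ht l
  by_contra hcon
  obtain ⟨i, j, hi, hj, hij⟩ := hM.nc
  letI : Algebra K ℂ := σ.toAlgebra
  have hσ : algebraMap K ℂ = σ := rfl
  -- the complex data
  let S0 : Matrix (Fin (n + 1)) (Fin (n + 1)) ℂ := LinearMap.toMatrix' S.toLinearMap
  let T0 : Matrix (Fin (n + 1)) (Fin (n + 1)) ℂ := LinearMap.toMatrix' S.symm.toLinearMap
  have hST0 : S0 * T0 = 1 := by
    show LinearMap.toMatrix' S.toLinearMap * LinearMap.toMatrix' S.symm.toLinearMap = 1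
    rw [← LinearMap.toMatrix'_comp, LinearEquiv.comp_symm, LinearMap.toMatrix'_id]
  have hS0 : ∀ y, S0.mulVec y = S y := by
    intro y
    show (LinearMap.toMatrix' S.toLinearMap).mulVec y = _
    rw [LinearMap.toMatrix'_mulVec]
    rfl
  let x0 : Fin (n + 1) → ℂ := fun j => x j * t ^ k j
  have hcur : ∀ s : ℂ, cur k S0 x0 s = S fun j => x j * (t * s) ^ k j := by
    intro s
    unfold cur
    rw [hS0]
    congr 1
    funext j
    show x j * t ^ k j * s ^ k j = _
    rw [mul_pow]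
    ring
  let κ0 : Ix n → ℂ := Sum.elim (fun p => S0 p.1 p.2) (Sum.elim (fun p => T0 p.1 p.2) x0)
  have hm1 : mS κ0 = S0 := rfl
  have hm2 : mT κ0 = T0 := rfl
  have hm3 : vX κ0 = x0 := rfl
  obtain ⟨κ1, hκ1, hκ1'⟩ := Pool.Agent.H952R2.Sextic.transfer (k := K) (M := ℂ) (kb := AlgebraicClosure K)
    (fun z : (Fin (n + 1) × Fin (n + 1)) ⊕ (ι × ℕ) => Sum.elim (fun p => geq (K := K) p.1 p.2)
      (fun p : ι × ℕ => bind₁ (gcur (K := K) k p.2) (map (algebraMap (𝓞 K) K) (F p.1))) z)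
    (X (Sum.inr (Sum.inr i)) * X (Sum.inr (Sum.inr j)) * bind₁ (gcur (K := K) k 0) (map (algebraMap (𝓞 K) K) (G l)))
    ⟨κ0, by
      rintro (p | p)
      · simp only [Sum.elim_inl]
        rw [aeval_geq, hm1, hm2, hST0, sub_self]
      · simp only [Sum.elim_inr]
        rw [aeval_bind_gcur, hm1, hm3, hcur, aeval_def, eval₂_map, hσ]
        exact hM.mem _ (mul_ne_zero ht (pow_ne_zero _ two_ne_zero)) _, by
      rw [map_mul, map_mul, aeval_X, aeval_X, aeval_bind_gcur, hm1, hm3, hcur, pow_zero, mul_one, aeval_def,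
        eval₂_map, hσ]
      exact mul_ne_zero (mul_ne_zero (mul_ne_zero hi (pow_ne_zero _ ht)) (mul_ne_zero hj (pow_ne_zero _ ht))) hcon⟩
  -- descend to a number field
  let L := IntermediateField.adjoin K (Set.range κ1)
  have hfinL : FiniteDimensional K L := by
    apply IntermediateField.finiteDimensional_adjoin
    intro x _
    exact Algebra.IsIntegral.isIntegral x
  have hNF : NumberField L := NumberField.of_module_finite K L
  let κL : Ix n → L := fun j => ⟨κ1 j, IntermediateField.subset_adjoin K _ ⟨j, rfl⟩⟩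
  have hκL : ∀ p : MvPolynomial (Ix n) K, algebraMap L (AlgebraicClosure K) (aeval κL p) = aeval κ1 p := by
    intro p
    rw [← aeval_algebraMap_apply]
    rfl
  have hinj : Function.Injective (algebraMap L (AlgebraicClosure K)) := (algebraMap L (AlgebraicClosure K)).injective
  have hne' : aeval κL (X (Sum.inr (Sum.inr i)) * X (Sum.inr (Sum.inr j)) *
      bind₁ (gcur (K := K) k 0) (map (algebraMap (𝓞 K) K) (G l))) ≠ 0 := by
    intro h0
    apply hκ1'
    rw [← hκL, h0, map_zero]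
  rw [map_mul, map_mul, aeval_X, aeval_X, aeval_bind_gcur, pow_zero] at hne'
  refine infinite_integral F G L k (mS κL) (mT κL) (vX κL) ?_ i j (left_ne_zero_of_mul (left_ne_zero_of_mul hne'))
    (right_ne_zero_of_mul (left_ne_zero_of_mul hne')) hij ?_ l (right_ne_zero_of_mul hne') hfin
  · ext r c
    have h1 := hκ1 (Sum.inl (r, c))
    simp only [Sum.elim_inl] at h1
    rw [← hκL, map_eq_zero_iff _ hinj, aeval_geq] at h1
    have h2 : (mS κL * mT κL) r c = (1 : Matrix (Fin (n + 1)) (Fin (n + 1)) L) r c := sub_eq_zero.1 h1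
    exact congrArg _ h2
  · intro a u
    have h1 := hκ1 (Sum.inr (u, a))
    simp only [Sum.elim_inr] at h1
    rw [← hκL, map_eq_zero_iff _ hinj, aeval_bind_gcur] at h1
    exact h1

end Pool.Agent.Q185.OK
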